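import Mathlib
import Pool.Agent.H94.AC.Targets

/-!
# Module CTC: no surface is tangent to both explicit gradients
-/

open MeasureTheory Set Filter Topology Metric
open scoped ENNReal NNReal ContDiff RealInnerProductSpace

namespace Pool.Agent.H22.ICA

open Pool.Agent.H94.IC Pool.Agent.H94.AC

/-- contact vector field -/
noncomputable def cV (x : E) : E := x 1 • ev 0 + x 0 • ev 1 + ev 2

lemma inner_gr (f : E → ℝ) (x v : E) : ⟪gr f x, v⟫ = fderiv ℝ f x v := by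
  exact InnerProductSpace.toDual_symm_apply

lemma gr_co (f : E → ℝ) (x : E) (k : Fin 3) : (gr f x) k = fderiv ℝ f x (ev k) := by
  rw [← inner_gr, EuclideanSpace.inner_single_right]
  simp

lemma hasFDerivAt_co (k : Fin 3) (x : E) :
    HasFDerivAt (fun y : E => y k) (EuclideanSpace.proj k : E →L[ℝ] ℝ) x :=
  (EuclideanSpace.proj k : E →L[ℝ] ℝ).hasFDerivAt

lemma fderiv_eq_sum (L : E →L[ℝ] ℝ) (v : E) : L v = v 0 * L (ev 0) + v 1 * L (ev 1) + v 2 * L (ev 2) := by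
  have : v = v 0 • ev 0 + v 1 • ev 1 + v 2 • ev 2 := by
    ext i; fin_cases i <;> simp [ev]
  conv_lhs => rw [this]
  simp

theorem ctc : T_CTC := by
  intro Ψ p hp hp2 hΨ hΨs H
  set f : E → ℝ := fun x => (Ψ x) 2 with hf
  have hfs : ContDiffOn ℝ ∞ f Ψ.source := by
    have h1 : ContDiff ℝ ∞ (fun y : E => y 2) := (EuclideanSpace.proj (2 : Fin 3) : E →L[ℝ] ℝ).contDiff
    exact h1.comp_contDiffOn hΨ
  have hfa : ∀ q ∈ Ψ.source, ContDiffAt ℝ ∞ f q := fun q hq => hfs.contDiffAt (Ψ.open_source.mem_nhds hq)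
  have hΨa : ∀ q ∈ Ψ.source, DifferentiableAt ℝ Ψ q := fun q hq =>
    (hΨ.contDiffAt (Ψ.open_source.mem_nhds hq)).differentiableAt (by simp)
  have hΨsa : ∀ q ∈ Ψ.source, DifferentiableAt ℝ Ψ.symm (Ψ q) := fun q hq =>
    (hΨs.contDiffAt (Ψ.open_target.mem_nhds (Ψ.map_source hq))).differentiableAt (by simp)
  have hf' : ∀ q ∈ Ψ.source, ∀ v, fderiv ℝ f q v = (fderiv ℝ Ψ q v) 2 := by
    intro q hq v
    have h1 : HasFDerivAt f ((EuclideanSpace.proj (2 : Fin 3) : E →L[ℝ] ℝ).comp (fderiv ℝ Ψ q)) q :=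
      (hasFDerivAt_co 2 (Ψ q)).comp q (hΨa q hq).hasFDerivAt
    rw [h1.fderiv]; rfl
  -- inverse derivatives
  have hinv1 : ∀ q ∈ Ψ.source, ∀ v, fderiv ℝ Ψ.symm (Ψ q) (fderiv ℝ Ψ q v) = v := by
    intro q hq v
    have h1 : HasFDerivAt (Ψ.symm ∘ Ψ) ((fderiv ℝ Ψ.symm (Ψ q)).comp (fderiv ℝ Ψ q)) q :=
      (hΨsa q hq).hasFDerivAt.comp q (hΨa q hq).hasFDerivAt
    have h2 : HasFDerivAt (Ψ.symm ∘ Ψ) (ContinuousLinearMap.id ℝ E) q := by
      refine (hasFDerivAt_id q).congr_of_eventuallyEq ?_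
      filter_upwards [Ψ.open_source.mem_nhds hq] with x hx using Ψ.left_inv hx
    have := h1.unique h2
    exact congrArg (fun L : E →L[ℝ] E => L v) this
  have hinv2 : ∀ q ∈ Ψ.source, ∀ w, fderiv ℝ Ψ q (fderiv ℝ Ψ.symm (Ψ q) w) = w := by
    intro q hq w
    have hq' : Ψ.symm (Ψ q) = q := Ψ.left_inv hq
    have h1 : HasFDerivAt (Ψ ∘ Ψ.symm) ((fderiv ℝ Ψ q).comp (fderiv ℝ Ψ.symm (Ψ q))) (Ψ q) := by
      refine HasFDerivAt.comp (Ψ q) ?_ (hΨsa q hq).hasFDerivAt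
      rw [hq']; exact (hΨa q hq).hasFDerivAt
    have h2 : HasFDerivAt (Ψ ∘ Ψ.symm) (ContinuousLinearMap.id ℝ E) (Ψ q) := by
      refine (hasFDerivAt_id _).congr_of_eventuallyEq ?_
      filter_upwards [Ψ.open_target.mem_nhds (Ψ.map_source hq)] with x hx using Ψ.right_inv hx
    have := h1.unique h2
    exact congrArg (fun L : E →L[ℝ] E => L w) this
  -- tangential derivatives
  have htan : ∀ (k : E → ℝ) (q : E), q ∈ Ψ.source → f q = 0 → DifferentiableAt ℝ k q →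
      (∀ x ∈ Ψ.source, f x = 0 → k x = 0) → ∀ v, fderiv ℝ f q v = 0 → fderiv ℝ k q v = 0 := by
    intro k q hq hfq hk hkz v hv
    set w := fderiv ℝ Ψ q v with hw
    have hw2 : w 2 = 0 := by rw [hw, ← hf' q hq v]; exact hv
    have hline : HasDerivAt (fun t : ℝ => Ψ q + t • w) w 0 := by
      have := ((hasDerivAt_id (0 : ℝ)).smul_const w).const_add (Ψ q)
      simpa using this
    have h0 : Ψ q + (0 : ℝ) • w = Ψ q := by simp
    have hg : HasDerivAt (fun t : ℝ => Ψ.symm (Ψ q + t • w)) v 0 := by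
      have h1 : HasFDerivAt Ψ.symm (fderiv ℝ Ψ.symm (Ψ q)) (Ψ q + (0 : ℝ) • w) := by
        rw [h0]; exact (hΨsa q hq).hasFDerivAt
      have h2 := h1.comp_hasDerivAt (0 : ℝ) hline
      have h3 : fderiv ℝ Ψ.symm (Ψ q) w = v := by rw [hw]; exact hinv1 q hq v
      rw [h3] at h2
      exact h2
    have hk1 : HasDerivAt (fun t : ℝ => k (Ψ.symm (Ψ q + t • w))) (fderiv ℝ k q v) 0 := by
      have h1 : HasFDerivAt k (fderiv ℝ k q) (Ψ.symm (Ψ q + (0 : ℝ) • w)) := by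
        rw [h0, Ψ.left_inv hq]; exact hk.hasFDerivAt
      exact h1.comp_hasDerivAt (0 : ℝ) hg
    have hk2 : HasDerivAt (fun t : ℝ => k (Ψ.symm (Ψ q + t • w))) 0 0 := by
      refine (hasDerivAt_const (0 : ℝ) (0 : ℝ)).congr_of_eventuallyEq ?_
      have hev : ∀ᶠ t in 𝓝 (0 : ℝ), Ψ q + t • w ∈ Ψ.target := by
        have hc : ContinuousAt (fun t : ℝ => Ψ q + t • w) 0 := hline.continuousAt
        apply hc.eventually
        simp only [h0]
        exact Ψ.open_target.mem_nhds (Ψ.map_source hq)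
      filter_upwards [hev] with t ht
      apply hkz _ (Ψ.map_target ht)
      show (Ψ (Ψ.symm (Ψ q + t • w))) 2 = 0
      rw [Ψ.right_inv ht]
      have : (Ψ q) 2 = 0 := hfq
      simp [this, hw2]
    exact hk1.unique hk2
  -- the two equations
  have e1 : ∀ q ∈ Ψ.source, f q = 0 → fderiv ℝ f q (ev 0) = 0 := by
    intro q hq hfq
    have h := H 0 q hq hfq
    rw [inner_gr] at h
    have h2 : HasFDerivAt (pot 0) (EuclideanSpace.proj (0 : Fin 3) : E →L[ℝ] ℝ) q := hasFDerivAt_co 0 q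
    rw [h2.fderiv] at h
    rw [← gr_co]; exact h
  have e2 : ∀ q ∈ Ψ.source, f q = 0 → fderiv ℝ f q (cV q) = 0 := by
    intro q hq hfq
    have h := H 1 q hq hfq
    rw [inner_gr] at h
    have h2 : HasFDerivAt (pot 1) ((q 0) • (EuclideanSpace.proj (1 : Fin 3) : E →L[ℝ] ℝ) +
        (q 1) • (EuclideanSpace.proj (0 : Fin 3) : E →L[ℝ] ℝ) +
        (EuclideanSpace.proj (2 : Fin 3) : E →L[ℝ] ℝ)) q :=
      ((hasFDerivAt_co 0 q).mul (hasFDerivAt_co 1 q)).add (hasFDerivAt_co 2 q)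
    rw [h2.fderiv] at h
    have h4 : q 0 * (gr f q) 1 + q 1 * (gr f q) 0 + (gr f q) 2 = 0 := by
      simpa using h
    rw [gr_co, gr_co, gr_co] at h4
    simp only [cV, map_add, map_smul, smul_eq_mul]
    linarith
  -- second derivatives
  have hD : ∀ q ∈ Ψ.source, HasFDerivAt (fderiv ℝ f) (fderiv ℝ (fderiv ℝ f) q) q := by
    intro q hq
    have : DifferentiableAt ℝ (fderiv ℝ f) q :=
      ((hfa q hq).fderiv_right (m := 1) (by norm_cast)).differentiableAt (by simp)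
    exact this.hasFDerivAt
  have hVd : ∀ q : E, HasFDerivAt cV ((EuclideanSpace.proj (1 : Fin 3) : E →L[ℝ] ℝ).smulRight (ev 0) +
      (EuclideanSpace.proj (0 : Fin 3) : E →L[ℝ] ℝ).smulRight (ev 1)) q := by
    intro q
    have h := (((hasFDerivAt_co 1 q).smul_const (ev 0)).add ((hasFDerivAt_co 0 q).smul_const (ev 1))).add_const
      (ev 2)
    exact h
  have hsym : IsSymmSndFDerivAt ℝ f p := (hfa p hp).isSymmSndFDerivAt (by simp; norm_cast)
  have hfp : f p = 0 := hp2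
  -- first application
  have a1 : fderiv ℝ (fderiv ℝ f) p (cV p) (ev 0) = 0 := by
    have hk : HasFDerivAt (fun x => fderiv ℝ f x (ev 0))
        ((ContinuousLinearMap.apply ℝ ℝ (ev 0)).comp (fderiv ℝ (fderiv ℝ f) p)) p :=
      (ContinuousLinearMap.apply ℝ ℝ (ev 0)).hasFDerivAt.comp p (hD p hp)
    have := htan (fun x => fderiv ℝ f x (ev 0)) p hp hfp hk.differentiableAt e1 (cV p) (e2 p hp hfp)
    rw [hk.fderiv] at this
    exact this
  have a2 : fderiv ℝ (fderiv ℝ f) p (ev 0) (cV p) + fderiv ℝ f p (ev 1) = 0 := by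
    have hk := (hD p hp).clm_apply (hVd p)
    have := htan (fun x => fderiv ℝ f x (cV x)) p hp hfp hk.differentiableAt e2 (ev 0) (e1 p hp hfp)
    rw [hk.fderiv] at this
    simp [ev] at this
    simp only [ev]
    linarith
  have a3 : fderiv ℝ f p (ev 1) = 0 := by
    have := hsym (cV p) (ev 0)
    rw [a1] at this
    rw [← this] at a2
    linarith
  have a4 : fderiv ℝ f p (ev 2) = 0 := by
    have h := e2 p hp hfp
    simp only [cV, map_add, map_smul, smul_eq_mul] at h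
    rw [a3, e1 p hp hfp] at h
    linarith
  have h5 := fderiv_eq_sum (fderiv ℝ f p) (fderiv ℝ Ψ.symm (Ψ p) (ev 2))
  rw [e1 p hp hfp, a3, a4, hf' p hp, hinv2 p hp] at h5
  simp [ev] at h5

end Pool.Agent.H22.ICA
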