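import Mathlib
import Pool.Agent.H94.AC.Targets

/-!
# Module DFO: small deformations are diffeomorphisms
-/

open MeasureTheory Set Filter Topology Metric
open scoped ENNReal NNReal ContDiff RealInnerProductSpace

namespace Pool.Agent.H22.ICA

open Pool.Agent.H94.IC Pool.Agent.H94.AC

open Classical in
/-- a map of the chart, extended by the identity -/
noncomputable def xt (Ψ : OpenPartialHomeomorph E E) (g : E → E) (x : E) : E :=
  if x ∈ Ψ.source then Ψ.symm (g (Ψ x)) else x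

lemma xt_smooth (Ψ : OpenPartialHomeomorph E E) (R : ℝ) (hR : 0 < R) (hT : closedBall 0 (2 * R) ⊆ Ψ.target)
    (h1 : ContDiffOn ℝ ∞ Ψ Ψ.source) (h2 : ContDiffOn ℝ ∞ Ψ.symm Ψ.target) (g : E → E) (hg : ContDiff ℝ ∞ g)
    (hgt : ∀ y ∈ Ψ.target, g y ∈ Ψ.target) (hgR : ∀ y, R ≤ ‖y‖ → g y = y) : ContDiff ℝ ∞ (xt Ψ g) := by
  classical
  rw [contDiff_iff_contDiffAt]
  intro x
  by_cases hx : x ∈ Ψ.source
  · have hs := Ψ.open_source.mem_nhds hx
    have ha : ContDiffAt ℝ ∞ (fun x => Ψ.symm (g (Ψ x))) x := by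
      have hb : ContDiffAt ℝ ∞ Ψ.symm (g (Ψ x)) :=
        h2.contDiffAt (Ψ.open_target.mem_nhds (hgt _ (Ψ.map_source hx)))
      have hc : ContDiffAt ℝ ∞ (fun x => g (Ψ x)) x := hg.contDiffAt.comp x (h1.contDiffAt hs)
      exact hb.comp x hc
    refine ha.congr_of_eventuallyEq ?_
    filter_upwards [hs] with y hy
    simp [xt, hy]
  · set K := Ψ.symm '' closedBall 0 R with hK
    have hRT : closedBall (0 : E) R ⊆ Ψ.target := (closedBall_subset_closedBall (by linarith)).trans hT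
    have hKc : IsCompact K := (isCompact_closedBall 0 R).image_of_continuousOn
      (Ψ.symm.continuousOn.mono (by simpa using hRT))
    have hKs : K ⊆ Ψ.source := by
      rintro _ ⟨y, hy, rfl⟩
      exact Ψ.map_target (hRT hy)
    have hxK : x ∉ K := fun h => hx (hKs h)
    refine contDiffAt_id.congr_of_eventuallyEq ?_
    filter_upwards [hKc.isClosed.isOpen_compl.mem_nhds hxK] with y hy
    by_cases hys : y ∈ Ψ.source
    · have h3 : R ≤ ‖Ψ y‖ := by
        by_contra h4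
        push Not at h4
        apply hy
        exact ⟨Ψ y, by simpa using h4.le, Ψ.left_inv hys⟩
      simp [xt, hys, hgR _ h3]
    · simp [xt, hys]

lemma xt_map (Ψ : OpenPartialHomeomorph E E) (g : E → E)
    (hgt : ∀ y ∈ Ψ.target, g y ∈ Ψ.target) (x : E) (hx : x ∈ Ψ.source) :
    xt Ψ g x ∈ Ψ.source ∧ Ψ (xt Ψ g x) = g (Ψ x) := by
  classical
  have h := hgt _ (Ψ.map_source hx)
  simp only [xt, hx, if_true]
  exact ⟨Ψ.map_target h, Ψ.right_inv h⟩

lemma xt_inv (Ψ : OpenPartialHomeomorph E E) (g g' : E → E)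
    (hgt' : ∀ y ∈ Ψ.target, g' y ∈ Ψ.target)
    (h : ∀ y, g (g' y) = y) (x : E) : xt Ψ g (xt Ψ g' x) = x := by
  classical
  by_cases hx : x ∈ Ψ.source
  · obtain ⟨h1, h2⟩ := xt_map Ψ g' hgt' x hx
    have : xt Ψ g (xt Ψ g' x) = Ψ.symm (g (Ψ (xt Ψ g' x))) := by
      conv_lhs => rw [xt]
      simp [h1]
    rw [this, h2, h, Ψ.left_inv hx]
  · have h1 : xt Ψ g' x = x := by simp [xt, hx]
    rw [h1]; simp [xt, hx]

theorem dfo : T_DFO := by
  classical
  intro Ψ R χ hR hT h1 h2 hχ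
  have hcs : HasCompactSupport χ := by
    refine HasCompactSupport.intro (isCompact_closedBall (0 : E) R) ?_
    intro y hy
    apply hχ.out
    simp at hy
    exact hy.le
  obtain ⟨K, hK⟩ := hχ.sm.lipschitzWith_of_hasCompactSupport hcs (by simp)
  refine ⟨min R (1 / (2 * ((K : ℝ) + 1))), lt_min hR (by positivity), ?_⟩
  intro l hl _
  rw [mem_ball_zero_iff, lt_min_iff] at hl
  obtain ⟨hl1, hl2⟩ := hl
  have hK0 : (0 : ℝ) ≤ K := K.2
  have hKl : (K : ℝ) * ‖l‖ ≤ 1 / 2 := by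
    rw [lt_div_iff₀ (by positivity)] at hl2
    nlinarith [norm_nonneg l]
  set θ : E → E := fun y => y + χ y • l with hθ
  have hθs : ContDiff ℝ ∞ θ := contDiff_id.add (hχ.sm.smul contDiff_const)
  have hθR : ∀ y, R ≤ ‖y‖ → θ y = y := by
    intro y hy
    simp [hθ, hχ.out y hy]
  have hap : ApproximatesLinearOn θ ((ContinuousLinearEquiv.refl ℝ E : E ≃L[ℝ] E) : E →L[ℝ] E) univ
      (1 / 2 : ℝ≥0) := by
    intro x _ y _
    have h3 : θ x - θ y - ((ContinuousLinearEquiv.refl ℝ E : E ≃L[ℝ] E) : E →L[ℝ] E) (x - y) =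
        (χ x - χ y) • l := by
      simp only [hθ, ContinuousLinearEquiv.coe_coe, ContinuousLinearEquiv.refl_apply]
      module
    rw [h3, norm_smul]
    have h4 : ‖χ x - χ y‖ ≤ K * ‖x - y‖ := by
      have := hK.dist_le_mul x y
      rwa [dist_eq_norm, dist_eq_norm] at this
    calc ‖χ x - χ y‖ * ‖l‖ ≤ K * ‖x - y‖ * ‖l‖ := by gcongr
      _ = (K * ‖l‖) * ‖x - y‖ := by ring
      _ ≤ (1 / 2) * ‖x - y‖ := by gcongr
      _ = _ := by norm_num
  have hN : Subsingleton E ∨ (1 / 2 : ℝ≥0) < ‖((ContinuousLinearEquiv.refl ℝ E).symm : E →L[ℝ] E)‖₊⁻¹ := by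
    right
    have h5 : ‖((ContinuousLinearEquiv.refl ℝ E).symm : E →L[ℝ] E)‖₊ ≤ 1 := by
      have : ‖((ContinuousLinearEquiv.refl ℝ E).symm : E →L[ℝ] E)‖ ≤ 1 := ContinuousLinearMap.norm_id_le
      exact_mod_cast this
    have h6 : (0 : ℝ≥0) < ‖((ContinuousLinearEquiv.refl ℝ E).symm : E →L[ℝ] E)‖₊ := by
      rw [pos_iff_ne_zero]
      intro h7
      rw [nnnorm_eq_zero] at h7
      have := congrArg (fun L : E →L[ℝ] E => L (ev 0)) h7
      have h8 := congrArg (fun v : E => v 0) this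
      simp [ev] at h8
    calc (1 / 2 : ℝ≥0) < 1 := by
          rw [← NNReal.coe_lt_coe]; norm_num
      _ ≤ _ := (one_le_inv₀ h6).2 h5
  set e : E ≃ₜ E := hap.toHomeomorph θ hN with he
  have hee : ∀ y, e y = θ y := fun y => rfl
  have hder : ∀ a, ∃ L : E ≃L[ℝ] E, HasFDerivAt e (L : E →L[ℝ] E) a := by
    intro a
    have hd : DifferentiableAt ℝ χ a := hχ.sm.differentiable (by simp) a
    have h3 : HasFDerivAt θ (ContinuousLinearMap.id ℝ E + (fderiv ℝ χ a).smulRight l) a :=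
      (hasFDerivAt_id a).add (hd.hasFDerivAt.smul_const l)
    have h4 : ‖-((fderiv ℝ χ a).smulRight l)‖ < 1 := by
      rw [norm_neg, ContinuousLinearMap.norm_smulRight_apply]
      have h5 : ‖fderiv ℝ χ a‖ ≤ K := norm_fderiv_le_of_lipschitz ℝ hK
      calc ‖fderiv ℝ χ a‖ * ‖l‖ ≤ K * ‖l‖ := by gcongr
        _ ≤ 1 / 2 := hKl
        _ < 1 := by norm_num
    refine ⟨ContinuousLinearEquiv.unitsEquiv ℝ E (Units.oneSub _ h4), ?_⟩
    have h6 : ((ContinuousLinearEquiv.unitsEquiv ℝ E (Units.oneSub _ h4) : E ≃L[ℝ] E) : E →L[ℝ] E) =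
        ContinuousLinearMap.id ℝ E + (fderiv ℝ χ a).smulRight l := by
      ext1 v
      rw [ContinuousLinearEquiv.coe_coe, ContinuousLinearEquiv.unitsEquiv_apply]
      simp [Units.val_oneSub]
    rw [h6]
    exact h3
  choose L hL using hder
  have hes : ContDiff ℝ ∞ e.symm := e.contDiff_symm hL hθs
  have ht1 : ∀ y ∈ Ψ.target, θ y ∈ Ψ.target := by
    intro y hy
    by_cases h3 : R ≤ ‖y‖
    · rw [hθR y h3]; exact hy
    · push Not at h3
      apply hT
      rw [mem_closedBall_zero_iff]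
      have h4 : ‖χ y • l‖ ≤ ‖l‖ := by
        rw [norm_smul, Real.norm_eq_abs, abs_of_nonneg (hχ.ran y).1]
        exact mul_le_of_le_one_left (norm_nonneg l) (hχ.ran y).2
      calc ‖y + χ y • l‖ ≤ ‖y‖ + ‖χ y • l‖ := norm_add_le _ _
        _ ≤ 2 * R := by linarith
  have ht2 : ∀ y ∈ Ψ.target, e.symm y ∈ Ψ.target := by
    intro y hy
    have h3 : θ (e.symm y) = y := e.apply_symm_apply y
    by_cases h4 : R ≤ ‖e.symm y‖
    · rw [hθR _ h4] at h3
      rw [h3]; exact hy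
    · push Not at h4
      apply hT
      rw [mem_closedBall_zero_iff]
      linarith
  have hsR : ∀ y, R ≤ ‖y‖ → e.symm y = y := by
    intro y hy
    rw [Homeomorph.symm_apply_eq]
    exact (hθR y hy).symm
  have hdx : defo Ψ χ l = xt Ψ θ := by
    funext x
    simp [defo, xt, hθ]
  rw [hdx]
  refine ⟨xt_smooth Ψ R hR hT h1 h2 θ hθs ht1 hθR, ⟨xt Ψ e.symm, xt_smooth Ψ R hR hT h1 h2 _ hes ht2 hsR,
    fun x => ⟨?_, ?_⟩⟩, fun x hx => xt_map Ψ θ ht1 x hx⟩
  · exact xt_inv Ψ θ e.symm ht2 (fun y => e.apply_symm_apply y) x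
  · exact xt_inv Ψ e.symm θ ht1 (fun y => e.symm_apply_apply y) x

end Pool.Agent.H22.ICA
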