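import Mathlib
import Pool.Agent.H94.AC.Targets
import Pool.Agent.H14.IC.Fub

/-!
# Module POI: Poincare inequality for test functions near a flat piece of the crack
-/

open MeasureTheory Set Filter Topology Metric
open scoped ENNReal NNReal ContDiff RealInnerProductSpace

namespace Pool.Agent.H22.ICA

open Pool.Agent.H94.IC Pool.Agent.H94.AC Pool.Agent.H14.IC

/-- solid cylinder of radius `R` over the heights in `(α, β)` -/
def Cy (R α β : ℝ) : Set E := {y | y 0 ^ 2 + y 1 ^ 2 ≤ R ^ 2 ∧ y 2 ∈ Ioo α β}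

lemma meas_co (k : Fin 3) : Measurable fun y : E => y k :=
  (EuclideanSpace.proj k : E →L[ℝ] ℝ).continuous.measurable

lemma meas_Cy (R α β : ℝ) : MeasurableSet (Cy R α β) := by
  have h1 : MeasurableSet {y : E | y 0 ^ 2 + y 1 ^ 2 ≤ R ^ 2} :=
    measurableSet_le (((meas_co 0).pow_const 2).add ((meas_co 1).pow_const 2)) measurable_const
  have h2 : MeasurableSet {y : E | y 2 ∈ Ioo α β} := (meas_co 2) measurableSet_Ioo
  exact h1.inter h2

lemma side (O : Set E) (w : E → ℝ) (hO : IsOpen O) (hw : ContDiffOn ℝ ∞ w O) (α β R s0 : ℝ)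
    (hβ : β - α ≤ 2 * R) (hs0 : s0 ∈ Ioo α β) (hI : Cy R α β ⊆ O)
    (hz : ∀ y, y 2 = s0 → w y = 0) :
    ∫⁻ y in Cy R α β, ENNReal.ofReal (w y ^ 2) ≤
      ENNReal.ofReal (2 * R) * (ENNReal.ofReal (2 * R) *
        ∫⁻ y in Cy R α β, ENNReal.ofReal (fderiv ℝ w y (ev 2) ^ 2)) := by
  have hm := meas_Cy R α β
  have hdc : ContinuousOn (fun y => fderiv ℝ w y (ev 2)) O := by
    have h1 : ContinuousOn (fderiv ℝ w) O := hw.continuousOn_fderiv_of_isOpen hO (by simp)
    exact h1.clm_apply continuousOn_const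
  have m1 : AEMeasurable ((Cy R α β).indicator fun y => ENNReal.ofReal (w y ^ 2)) volume := by
    rw [aemeasurable_indicator_iff hm]
    exact (((hw.continuousOn.mono hI).aemeasurable hm).pow_const 2).ennreal_ofReal
  have m2 : AEMeasurable ((Cy R α β).indicator fun y => ENNReal.ofReal (fderiv ℝ w y (ev 2) ^ 2)) volume := by
    rw [aemeasurable_indicator_iff hm]
    exact (((hdc.mono hI).aemeasurable hm).pow_const 2).ennreal_ofReal
  rw [← lintegral_indicator hm, ← lintegral_indicator hm, lint_em m1, lint_em m2,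
    ← lintegral_const_mul' _ _ ENNReal.ofReal_ne_top, ← lintegral_const_mul' _ _ ENNReal.ofReal_ne_top]
  refine lintegral_mono fun a => ?_
  by_cases ha : a.1 ^ 2 + a.2 ^ 2 ≤ R ^ 2
  · have hcy : ∀ t, em (a, t) ∈ Cy R α β ↔ t ∈ Ioo α β := by
      intro t
      simp only [Cy, Set.mem_ofPred_eq, em_0, em_1, em_2]
      exact ⟨fun h => h.2, fun h => ⟨ha, h⟩⟩
    have hind : ∀ g : E → ℝ≥0∞, (∫⁻ t : ℝ, (Cy R α β).indicator g (em (a, t))) =
        ∫⁻ t in Ioo α β, g (em (a, t)) := by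
      intro g
      rw [← lintegral_indicator measurableSet_Ioo]
      refine lintegral_congr fun t => ?_
      by_cases ht : t ∈ Ioo α β
      · rw [indicator_of_mem ((hcy t).2 ht), indicator_of_mem ht]
      · rw [indicator_of_notMem (fun h => ht ((hcy t).1 h)), indicator_of_notMem ht]
    rw [hind, hind]
    have hd : ∀ t ∈ Ioo α β, HasDerivAt (fun s => w (em (a, s))) (fderiv ℝ w (em (a, t)) (ev 2)) t := by
      intro t ht
      apply hasDerivAt_em
      exact (hw.contDiffAt (hO.mem_nhds (hI ((hcy t).2 ht)))).differentiableAt (by simp)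
    have hc : ContinuousOn (fun t => fderiv ℝ w (em (a, t)) (ev 2)) (Ioo α β) := by
      refine hdc.comp (Continuous.continuousOn (continuous_em.comp (by fun_prop))) ?_
      intro t ht
      exact hI ((hcy t).2 ht)
    have hb : ∀ t ∈ Ioo α β, ENNReal.ofReal (w (em (a, t)) ^ 2) ≤ ENNReal.ofReal (2 * R) *
        ∫⁻ s in Ioo α β, ENNReal.ofReal (fderiv ℝ w (em (a, s)) (ev 2) ^ 2) := by
      intro t ht
      have := ofReal_sq_sub_le hβ hd hc hs0 ht
      have h0 : w (em (a, s0)) = 0 := hz _ (em_2 a s0)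
      simpa [h0] using this
    calc ∫⁻ t in Ioo α β, ENNReal.ofReal (w (em (a, t)) ^ 2)
        ≤ ∫⁻ _ in Ioo α β, ENNReal.ofReal (2 * R) *
          ∫⁻ s in Ioo α β, ENNReal.ofReal (fderiv ℝ w (em (a, s)) (ev 2) ^ 2) :=
          setLIntegral_mono' measurableSet_Ioo hb
      _ = (ENNReal.ofReal (2 * R) *
          ∫⁻ s in Ioo α β, ENNReal.ofReal (fderiv ℝ w (em (a, s)) (ev 2) ^ 2)) * volume (Ioo α β) := by
          rw [setLIntegral_const]
      _ ≤ (ENNReal.ofReal (2 * R) *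
          ∫⁻ s in Ioo α β, ENNReal.ofReal (fderiv ℝ w (em (a, s)) (ev 2) ^ 2)) * ENNReal.ofReal (2 * R) := by
          gcongr
          rw [Real.volume_Ioo]
          exact ENNReal.ofReal_le_ofReal hβ
      _ = _ := by ring
  · have h0 : ∀ g : E → ℝ≥0∞, ∀ t : ℝ, (Cy R α β).indicator g (em (a, t)) = 0 := by
      intro g t
      apply indicator_of_notMem
      intro h
      exact ha h.1
    simp [h0]

lemma norm_sq3 (y : E) : ‖y‖ ^ 2 = y 0 ^ 2 + y 1 ^ 2 + y 2 ^ 2 := by
  rw [EuclideanSpace.norm_sq_eq]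
  simp [Fin.sum_univ_three]

lemma null_plane : volume {y : E | y 2 = 0} = 0 := by
  have h : {y : E | y 2 = 0} = (LinearMap.ker ((EuclideanSpace.proj (2 : Fin 3) : E →L[ℝ] ℝ) : E →ₗ[ℝ] ℝ) : Set E) := by
    ext y; simp
  rw [h]
  apply Measure.addHaar_submodule
  intro h1
  have : (ev 2 : E) ∈ LinearMap.ker ((EuclideanSpace.proj (2 : Fin 3) : E →L[ℝ] ℝ) : E →ₗ[ℝ] ℝ) := by
    rw [h1]; trivial
  simp [ev] at this

theorem poi : T_POI := by
  intro Ψ R Ω S hR hT h1 h2 hΩ hS hvS hTO hfl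
  set B : Set E := closedBall 0 R with hB
  set K : Set E := Ψ.symm '' B with hK
  have hBT2 : B ⊆ closedBall (0 : E) (2 * R) := closedBall_subset_closedBall (by linarith)
  have hBT : B ⊆ Ψ.target := hBT2.trans hT
  have hd : ∀ y ∈ Ψ.target, DifferentiableAt ℝ Ψ.symm y := fun y hy =>
    (h2.contDiffAt (Ψ.open_target.mem_nhds hy)).differentiableAt (by simp)
  have hfc : ContinuousOn (fderiv ℝ Ψ.symm) Ψ.target :=
    h2.continuousOn_fderiv_of_isOpen Ψ.open_target (by simp)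
  -- determinants
  have hdet : ∀ y ∈ Ψ.target, (fderiv ℝ Ψ.symm y).det ≠ 0 := by
    intro y hy h0
    have hx := Ψ.map_target hy
    have hdx : DifferentiableAt ℝ Ψ (Ψ.symm y) :=
      (h1.contDiffAt (Ψ.open_source.mem_nhds hx)).differentiableAt (by simp)
    have e1 : HasFDerivAt (Ψ ∘ Ψ.symm) ((fderiv ℝ Ψ (Ψ.symm y)).comp (fderiv ℝ Ψ.symm y)) y :=
      hdx.hasFDerivAt.comp y (hd y hy).hasFDerivAt
    have e2 : HasFDerivAt (Ψ ∘ Ψ.symm) (ContinuousLinearMap.id ℝ E) y := by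
      refine (hasFDerivAt_id _).congr_of_eventuallyEq ?_
      filter_upwards [Ψ.open_target.mem_nhds hy] with x hx using Ψ.right_inv hx
    have e3 := e1.unique e2
    have e4 : ((fderiv ℝ Ψ (Ψ.symm y)) : E →ₗ[ℝ] E) ∘ₗ ((fderiv ℝ Ψ.symm y) : E →ₗ[ℝ] E) = LinearMap.id := by
      have := congrArg (fun L : E →L[ℝ] E => (L : E →ₗ[ℝ] E)) e3
      exact this
    have e5 := congrArg LinearMap.det e4
    rw [LinearMap.det_comp, LinearMap.det_id] at e5
    have e6 : LinearMap.det ((fderiv ℝ Ψ.symm y) : E →ₗ[ℝ] E) = 0 := h0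
    rw [e6, mul_zero] at e5
    exact zero_ne_one e5
  have hBc : IsCompact B := isCompact_closedBall 0 R
  have hBne : B.Nonempty := ⟨0, by simp [hB, hR.le]⟩
  have hdc : ContinuousOn (fun y => |(fderiv ℝ Ψ.symm y).det|) B := by
    have : Continuous fun L : E →L[ℝ] E => L.det := ContinuousLinearMap.continuous_det
    exact (this.comp_continuousOn (hfc.mono hBT)).abs
  obtain ⟨ym, hym, hmin⟩ := hBc.exists_isMinOn hBne hdc
  obtain ⟨yM, hyM, hmax⟩ := hBc.exists_isMaxOn hBne hdc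
  obtain ⟨yN, hyN, hmaxN⟩ := hBc.exists_isMaxOn hBne ((hfc.mono hBT).norm)
  set m := |(fderiv ℝ Ψ.symm ym).det| with hm
  set M := |(fderiv ℝ Ψ.symm yM).det| with hM
  set N := ‖fderiv ℝ Ψ.symm yN‖ with hN
  have hm0 : 0 < m := abs_pos.2 (hdet ym (hBT hym))
  have hbm : ∀ y ∈ B, m ≤ |(fderiv ℝ Ψ.symm y).det| := fun y hy => hmin hy
  have hbM : ∀ y ∈ B, |(fderiv ℝ Ψ.symm y).det| ≤ M := fun y hy => hmax hy
  have hbN : ∀ y ∈ B, ‖fderiv ℝ Ψ.symm y‖ ≤ N := fun y hy => hmaxN hy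
  refine ⟨M * (2 * ((2 * R) * ((2 * R) * (N ^ 2 * m⁻¹)))), by positivity, ?_⟩
  intro φ hφ
  -- change of variables
  have hBm : MeasurableSet B := measurableSet_closedBall
  have hcov : ∀ g : E → ℝ≥0∞, ∫⁻ x in K, g x =
      ∫⁻ y in B, ENNReal.ofReal |(fderiv ℝ Ψ.symm y).det| * g (Ψ.symm y) := by
    intro g
    exact lintegral_image_eq_lintegral_abs_det_fderiv_mul volume hBm
      (fun y hy => (hd y (hBT hy)).hasFDerivAt.hasFDerivWithinAt)
      (Ψ.symm.injOn.mono (by simpa using hBT)) g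
  set w : E → ℝ := fun y => φ (Ψ.symm y) with hw
  set O : Set E := Ψ.target ∩ Ψ.symm ⁻¹' (Ω \ S) with hO
  have hOo : IsOpen O := Ψ.symm.isOpen_inter_preimage (hΩ.sdiff hS)
  have hwO : ContDiffOn ℝ ∞ w O := by
    refine hφ.sm.comp (h2.mono inter_subset_left) ?_
    intro y hy
    exact hy.2
  have hball : ∀ y : E, y ∈ closedBall (0 : E) (2 * R) → y 2 ≠ 0 → y ∈ O := by
    intro y hy hy2
    refine ⟨hT hy, hTO ⟨y, hy, rfl⟩, ?_⟩
    intro h
    rw [hfl _ (Ψ.map_target (hT hy)), Ψ.right_inv (hT hy)] at h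
    exact hy2 h
  have hcyb : ∀ α β : ℝ, -(17 * R / 10) ≤ α → β ≤ 17 * R / 10 →
      Cy R α β ⊆ closedBall (0 : E) (2 * R) := by
    intro α β hα hβ y hy
    rw [mem_closedBall_zero_iff]
    apply le_of_sq_le_sq _ (by positivity) 
    rw [norm_sq3]
    have h3 := hy.1
    have h4 := hy.2.1
    have h5 := hy.2.2
    nlinarith
  have hzero : ∀ y ∈ Ψ.target, y ∉ B → Ψ.symm y ∈ Ω → w y = 0 := by
    intro y hy hyB hyO
    apply hφ.out
    refine ⟨hyO, ?_⟩
    rintro ⟨z, hz, hzy⟩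
    apply hyB
    have : z = y := Ψ.symm.injOn (by simpa using hBT hz) (by simpa using hy) hzy
    rwa [← this]
  -- one side
  have hside : ∀ α β s0 : ℝ, -(17 * R / 10) ≤ α → β ≤ 17 * R / 10 → β - α ≤ 2 * R → s0 ∈ Ioo α β →
      R < |s0| → (∀ t ∈ Ioo α β, t ≠ 0) →
      ∫⁻ y in Cy R α β, ENNReal.ofReal (w y ^ 2) ≤ ENNReal.ofReal (2 * R) * (ENNReal.ofReal (2 * R) *
        (ENNReal.ofReal (N ^ 2) * ∫⁻ y in B, ENNReal.ofReal (‖gr φ (Ψ.symm y)‖ ^ 2))) := by
    intro α β s0 hα hβ hαβ hs0 hRs ht0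
    have hcO : Cy R α β ⊆ O := fun y hy => hball y (hcyb α β hα hβ hy) (ht0 _ hy.2)
    -- the function is replaced by zero off the domain
    set w' : E → ℝ := fun y => if y 2 = s0 then 0 else w y with hw'
    have hs0B : ∀ y ∈ Cy R α β, R < |y 2| → ∀ᶠ z in 𝓝 y, w z = 0 := by
      intro y hy hyR
      have hyO := hcO hy
      have hyB : y ∉ B := by
        intro h
        rw [hB, mem_closedBall_zero_iff] at h
        have h3 : |y 2| ≤ ‖y‖ := by
          have := PiLp.norm_apply_le y 2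
          simpa using this
        linarith
      filter_upwards [hOo.mem_nhds hyO, hBc.isClosed.isOpen_compl.mem_nhds hyB] with z hz hzB
      exact hzero z hz.1 hzB hz.2.1
    have hww : ∀ y ∈ Cy R α β, w' y = w y := by
      intro y hy
      by_cases h : y 2 = s0
      · have : w y = 0 := by
          have := (hs0B y hy (by rw [h]; exact hRs)).self_of_nhds
          exact this
        simp [hw', h, this]
      · simp [hw', h]
    have hwe : ∀ y ∈ Cy R α β, w' =ᶠ[𝓝 y] w := by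
      intro y hy
      by_cases h : y 2 = s0
      · filter_upwards [hs0B y hy (by rw [h]; exact hRs)] with z hz
        by_cases hz2 : z 2 = s0
        · simp [hw', hz2, hz]
        · simp [hw', hz2]
      · have hcont : Continuous fun z : E => z 2 := (EuclideanSpace.proj (2 : Fin 3) : E →L[ℝ] ℝ).continuous
        filter_upwards [(isOpen_ne_fun hcont continuous_const).mem_nhds h] with z hz
        have hz' : z 2 ≠ s0 := hz
        simp [hw', hz']
    -- open neighbourhood of the cylinder on which `w'` is smooth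
    set O' : Set E := interior {y | y ∈ O ∧ w' =ᶠ[𝓝 y] w} with hO'
    have hO'o : IsOpen O' := isOpen_interior
    have hcO' : Cy R α β ⊆ O' := by
      intro y hy
      rw [hO', mem_interior_iff_mem_nhds]
      filter_upwards [hOo.mem_nhds (hcO hy), (hwe y hy).eventually_nhds] with z hz1 hz2
      exact ⟨hz1, hz2⟩
    have hw'O : ContDiffOn ℝ ∞ w' O' := by
      intro y hy
      have h3 := interior_subset hy
      exact ((hwO.contDiffAt (hOo.mem_nhds h3.1)).congr_of_eventuallyEq h3.2).contDiffWithinAt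
    have hmain := side O' w' hO'o hw'O α β R s0 hαβ hs0 hcO' (by
      intro y hy
      simp [hw', hy])
    have e1 : ∫⁻ y in Cy R α β, ENNReal.ofReal (w' y ^ 2) = ∫⁻ y in Cy R α β, ENNReal.ofReal (w y ^ 2) := by
      refine setLIntegral_congr_fun (meas_Cy R α β) (fun y hy => ?_)
      simp only [hww y hy]
    have e2 : ∫⁻ y in Cy R α β, ENNReal.ofReal (fderiv ℝ w' y (ev 2) ^ 2) ≤
        ENNReal.ofReal (N ^ 2) * ∫⁻ y in B, ENNReal.ofReal (‖gr φ (Ψ.symm y)‖ ^ 2) := by
      rw [← lintegral_const_mul' _ _ ENNReal.ofReal_ne_top, ← lintegral_indicator (meas_Cy R α β),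
        ← lintegral_indicator hBm]
      refine lintegral_mono fun y => ?_
      by_cases hy : y ∈ Cy R α β
      · rw [indicator_of_mem hy, (hwe y hy).fderiv_eq]
        have hyO := hcO hy
        by_cases hyB : y ∈ B
        · rw [indicator_of_mem hyB, ← ENNReal.ofReal_mul (by positivity)]
          apply ENNReal.ofReal_le_ofReal
          rw [← mul_pow, ← sq_abs]
          refine pow_le_pow_left₀ (abs_nonneg _) ?_ 2
          have hφd : DifferentiableAt ℝ φ (Ψ.symm y) :=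
            (hφ.sm.contDiffAt ((hΩ.sdiff hS).mem_nhds hyO.2)).differentiableAt (by simp)
          have hwd : HasFDerivAt w ((fderiv ℝ φ (Ψ.symm y)).comp (fderiv ℝ Ψ.symm y)) y :=
            hφd.hasFDerivAt.comp y (hd y hyO.1).hasFDerivAt
          rw [hwd.fderiv]
          have h5 : ‖gr φ (Ψ.symm y)‖ = ‖fderiv ℝ φ (Ψ.symm y)‖ := by simp [gr, gradient]
          rw [h5]
          calc |((fderiv ℝ φ (Ψ.symm y)).comp (fderiv ℝ Ψ.symm y)) (ev 2)|
              = ‖(fderiv ℝ φ (Ψ.symm y)) ((fderiv ℝ Ψ.symm y) (ev 2))‖ := rfl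
            _ ≤ ‖fderiv ℝ φ (Ψ.symm y)‖ * ‖(fderiv ℝ Ψ.symm y) (ev 2)‖ := ContinuousLinearMap.le_opNorm _ _
            _ ≤ ‖fderiv ℝ φ (Ψ.symm y)‖ * (‖fderiv ℝ Ψ.symm y‖ * ‖(ev 2 : E)‖) := by
                gcongr; exact ContinuousLinearMap.le_opNorm _ _
            _ = ‖fderiv ℝ Ψ.symm y‖ * ‖fderiv ℝ φ (Ψ.symm y)‖ := by simp [ev]; ring
            _ ≤ N * ‖fderiv ℝ φ (Ψ.symm y)‖ := by gcongr; exact hbN y hyB
        · have h6 : ∀ᶠ z in 𝓝 y, w z = 0 := by
            filter_upwards [hOo.mem_nhds hyO, hBc.isClosed.isOpen_compl.mem_nhds hyB] with z hz hzB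
            exact hzero z hz.1 hzB hz.2.1
          have h7 : fderiv ℝ w y = 0 := by
            have : w =ᶠ[𝓝 y] fun _ => (0 : ℝ) := h6
            rw [this.fderiv_eq]; simp
          rw [h7]; simp
      · rw [indicator_of_notMem hy]; exact zero_le
    rw [e1] at hmain
    refine hmain.trans ?_
    gcongr
  have hp := hside 0 (17 * R / 10) (3 * R / 2) (by linarith) le_rfl (by linarith)
    ⟨by linarith, by linarith⟩ (by rw [abs_of_pos (by linarith)]; linarith) (fun t ht => ht.1.ne')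
  have hn := hside (-(17 * R / 10)) 0 (-(3 * R / 2)) le_rfl (by linarith) (by linarith)
    ⟨by linarith, by linarith⟩ (by rw [abs_neg, abs_of_pos (by linarith)]; linarith) (fun t ht => ht.2.ne)
  set G := ∫⁻ y in B, ENNReal.ofReal (‖gr φ (Ψ.symm y)‖ ^ 2) with hG
  have hwB : ∫⁻ y in B, ENNReal.ofReal (w y ^ 2) ≤
      2 * (ENNReal.ofReal (2 * R) * (ENNReal.ofReal (2 * R) * (ENNReal.ofReal (N ^ 2) * G))) := by
    have hsub : B ⊆ (Cy R 0 (17 * R / 10) ∪ Cy R (-(17 * R / 10)) 0) ∪ {y : E | y 2 = 0} := by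
      intro y hy
      rw [hB, mem_closedBall_zero_iff] at hy
      have h3 : ‖y‖ ^ 2 ≤ R ^ 2 := pow_le_pow_left₀ (norm_nonneg _) hy 2
      rw [norm_sq3] at h3
      have h4 : |y 2| ≤ R := by
        apply abs_le_of_sq_le_sq _ hR.le
        nlinarith [sq_nonneg (y 0), sq_nonneg (y 1)]
      have h5 : y 0 ^ 2 + y 1 ^ 2 ≤ R ^ 2 := by nlinarith [sq_nonneg (y 2)]
      rw [abs_le] at h4
      rcases lt_trichotomy (y 2) 0 with h | h | h
      · left; right
        exact ⟨h5, by linarith, h⟩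
      · right; exact h
      · left; left
        exact ⟨h5, h, by linarith⟩
    calc ∫⁻ y in B, ENNReal.ofReal (w y ^ 2)
        ≤ ∫⁻ y in (Cy R 0 (17 * R / 10) ∪ Cy R (-(17 * R / 10)) 0) ∪ {y : E | y 2 = 0},
            ENNReal.ofReal (w y ^ 2) := lintegral_mono_set hsub
      _ ≤ (∫⁻ y in Cy R 0 (17 * R / 10) ∪ Cy R (-(17 * R / 10)) 0, ENNReal.ofReal (w y ^ 2)) +
            ∫⁻ y in {y : E | y 2 = 0}, ENNReal.ofReal (w y ^ 2) := lintegral_union_le _ _ _
      _ ≤ ((∫⁻ y in Cy R 0 (17 * R / 10), ENNReal.ofReal (w y ^ 2)) +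
            ∫⁻ y in Cy R (-(17 * R / 10)) 0, ENNReal.ofReal (w y ^ 2)) + 0 := by
          gcongr
          · exact lintegral_union_le _ _ _
          · rw [setLIntegral_measure_zero _ _ null_plane]
      _ ≤ _ := by
          rw [add_zero, two_mul]
          exact add_le_add hp hn
  -- back to the space
  have hGb : G ≤ ENNReal.ofReal m⁻¹ * ∫⁻ x in K, ENNReal.ofReal (‖gr φ x‖ ^ 2) := by
    rw [hcov, ← lintegral_const_mul' _ _ ENNReal.ofReal_ne_top, hG]
    refine setLIntegral_mono' hBm fun y hy => ?_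
    rw [← ENNReal.ofReal_mul (abs_nonneg _), ← ENNReal.ofReal_mul (by positivity)]
    apply ENNReal.ofReal_le_ofReal
    have := hbm y hy
    rw [← mul_assoc]
    apply le_mul_of_one_le_left (by positivity)
    calc (1 : ℝ) = m⁻¹ * m := by field_simp
      _ ≤ m⁻¹ * |(fderiv ℝ Ψ.symm y).det| := by gcongr
  have hA : ∫⁻ x in K, ENNReal.ofReal (φ x ^ 2) ≤ ENNReal.ofReal M * ∫⁻ y in B, ENNReal.ofReal (w y ^ 2) := by
    rw [hcov, ← lintegral_const_mul' _ _ ENNReal.ofReal_ne_top]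
    refine setLIntegral_mono' hBm fun y hy => ?_
    gcongr
    exact hbM y hy
  have hfin : ∫⁻ x in K, ENNReal.ofReal (φ x ^ 2) ≤
      ENNReal.ofReal (M * (2 * ((2 * R) * ((2 * R) * (N ^ 2 * m⁻¹))))) *
        ∫⁻ x in K, ENNReal.ofReal (‖gr φ x‖ ^ 2) := by
    have hM0 : 0 ≤ M := abs_nonneg _
    calc ∫⁻ x in K, ENNReal.ofReal (φ x ^ 2)
        ≤ ENNReal.ofReal M * (2 * (ENNReal.ofReal (2 * R) * (ENNReal.ofReal (2 * R) *
          (ENNReal.ofReal (N ^ 2) * (ENNReal.ofReal m⁻¹ * ∫⁻ x in K, ENNReal.ofReal (‖gr φ x‖ ^ 2)))))) := by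
          refine hA.trans ?_
          gcongr
          refine hwB.trans ?_
          gcongr
      _ = _ := by
          have e : ENNReal.ofReal (M * (2 * ((2 * R) * ((2 * R) * (N ^ 2 * m⁻¹))))) =
              ENNReal.ofReal M * (2 * (ENNReal.ofReal (2 * R) * (ENNReal.ofReal (2 * R) *
                (ENNReal.ofReal (N ^ 2) * ENNReal.ofReal m⁻¹)))) := by
            rw [ENNReal.ofReal_mul (p := M) hM0, ENNReal.ofReal_mul (p := 2)
              (q := (2 * R) * ((2 * R) * (N ^ 2 * m⁻¹))) (by norm_num),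
              ENNReal.ofReal_mul (p := 2 * R) (q := (2 * R) * (N ^ 2 * m⁻¹)) (by positivity),
              ENNReal.ofReal_mul (p := 2 * R) (q := N ^ 2 * m⁻¹) (by positivity),
              ENNReal.ofReal_mul (p := N ^ 2) (by positivity), ENNReal.ofReal_ofNat]
          rw [e]
          ring
  have hKΩ : K ⊆ Ω := (image_mono hBT2).trans hTO
  have i1 : MemLp φ 2 (volume.restrict K) := hφ.l2.mono_measure (Measure.restrict_mono hKΩ le_rfl)
  have i2 : MemLp (gr φ) 2 (volume.restrict K) := hφ.g2.mono_measure (Measure.restrict_mono hKΩ le_rfl)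
  have i3 : Integrable (fun x => ‖gr φ x‖ ^ 2) (volume.restrict K) :=
    (memLp_two_iff_integrable_sq_norm i2.aestronglyMeasurable).1 i2
  have i4 : Integrable (fun x => φ x ^ 2) (volume.restrict K) :=
    (memLp_two_iff_integrable_sq i1.aestronglyMeasurable).1 i1
  rw [← ENNReal.ofReal_le_ofReal_iff (by positivity), ENNReal.ofReal_mul (by positivity),
    ofReal_integral_eq_lintegral_ofReal i4 (ae_of_all _ fun x => sq_nonneg _),
    ofReal_integral_eq_lintegral_ofReal i3 (ae_of_all _ fun x => sq_nonneg _)]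
  exact hfin

end Pool.Agent.H22.ICA
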